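import Pool.Agent.H67.LW.Base

set_option autoImplicit false
set_option linter.unusedSectionVars false

namespace LW

namespace ORP

open Finset
open Pool.Agent.Helper36.BN (inc cyc bdry)

variable {V : Type} [Fintype V] [DecidableEq V] {G : SimpleGraph V} {k : ℕ}
  {Valid : Finset V → Prop} {X : Finset V → Finset V} {C : Finset V} {P : Finset (Finset V)} {h : V}

/-- everything that is used -/
structure Ctx (G : SimpleGraph V) (k : ℕ) (Valid : Finset V → Prop) (X : Finset V → Finset V)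
    (C : Finset V) (P : Finset (Finset V)) (h : V) : Prop where
  dec : Dec G k Valid X
  vC : Valid C
  piece : Piece G X C P
  L1 : ∀ C D, Valid C → Desc G X C D → Valid D ∧ D ⊆ C ∧ nbr G D ⊆ C ∪ nbr G C ∧
      (D ≠ C → D.card < C.card ∧ Disjoint D (X C))
  L2 : ∀ C D D', Valid C → Desc G X C D → Desc G X C D' →
      Desc G X D D' ∨ Desc G X D' D ∨ (Disjoint D D' ∧ ∀ u ∈ D, ∀ v ∈ D', ¬ G.Adj u v)
  L3 : ∀ E D, Valid E → Child G X E D → nbr G D ⊆ X E ∧ (nbr G D).Nonempty
  V2 : ∀ D, Desc G X C D → D ⊆ Vh G C h D ∧ h ∉ Vh G C h D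
  V3 : ∀ D D', Desc G X C D → Desc G X C D' → D ⊆ D' → Vh G C h D ⊆ Vh G C h D'
  V4 : ∀ D, Desc G X C D → ∀ x y, x ∈ Vh G C h D → y ∉ Vh G C h D → (gr G C).Adj x y → x ∈ D
  V5 : ∀ D D', Desc G X C D → Desc G X C D' → Disjoint D D' →
      (Disjoint (Vh G C h D) (Vh G C h D') ∧
        (∀ x ∈ Vh G C h D, ∀ y ∈ Vh G C h D', ¬ (gr G C).Adj x y)) ∨
      (Vh G C h D' ⊂ Vh G C h D ∧ D' ⊆ Vh G C h D ∧ Disjoint D (Vh G C h D')) ∨
      (Vh G C h D ⊂ Vh G C h D' ∧ D ⊆ Vh G C h D' ∧ Disjoint D' (Vh G C h D))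
  h3 : ∀ D₁ ∈ P, ∀ D₂ ∈ P, ∀ D₃ ∈ P, Disjoint (Vh G C h D₁) (Vh G C h D₂) →
      Disjoint (Vh G C h D₁) (Vh G C h D₃) → ¬ Disjoint (Vh G C h D₂) (Vh G C h D₃)

/-- the torso edge `e` touches the set `W` -/
def Tch (e : TE G X P) (W : Finset V) : Prop :=
  match e with
  | Sum.inl e => gs e.1 ∈ W ∨ gt e.1 ∈ W
  | Sum.inr p => p.1.1 ⊆ W

lemma Tch.mono {e : TE G X P} {W W' : Finset V} (he : Tch e W) (hW : W ⊆ W') : Tch e W' := by
  rcases e with e | p
  · exact he.imp (fun h => hW h) (fun h => hW h)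
  · exact Subset.trans he hW

open Classical in
/-- the parent in `P` -/
noncomputable def par (G : SimpleGraph V) (X : Finset V → Finset V) (P : Finset (Finset V))
    (D : Finset V) : Finset V :=
  if h : ∃ E ∈ P, Child G X E D then h.choose else ∅

lemma par_spec {D : Finset V} (hD : D ∈ Hang G X P) :
    par G X P D ∈ P ∧ Child G X (par G X P D) D := by
  have h1 := (mem_Hang.1 hD).2
  unfold par
  rw [dif_pos h1]
  exact h1.choose_spec

/-- the owner of a torso edge -/
noncomputable def own (e : TE G X P) : Finset V :=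
  match e with
  | Sum.inl e => e.2.choose
  | Sum.inr p => par G X P p.1.1

open Classical in
/-- a member of `Q` where `f` is minimal -/
noncomputable def am (f : Finset V → ℕ) (Q : Finset (Finset V)) : Finset V :=
  if h : Q.Nonempty then (Q.exists_min_image f h).choose else ∅

omit [Fintype V] [DecidableEq V] in
lemma am_spec (f : Finset V → ℕ) {Q : Finset (Finset V)} (hQ : Q.Nonempty) :
    am f Q ∈ Q ∧ ∀ D ∈ Q, f (am f Q) ≤ f D := by
  unfold am
  rw [dif_pos hQ]
  exact (Q.exists_min_image f hQ).choose_spec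

open Classical in
/-- the members of `P` whose side is touched -/
noncomputable def TT (C : Finset V) (h : V) (e : TE G X P) : Finset (Finset V) :=
  P.filter fun D => Tch e (Vh G C h D)

/-- the member of `P` with the smallest touched side -/
noncomputable def AA (C : Finset V) (h : V) (e : TE G X P) : Finset V :=
  am (fun D => (Vh G C h D).card * (Fintype.card V + 1) + D.card) (TT C h e)

namespace Ctx

variable (c : Ctx G k Valid X C P h)
include c

lemma dP {D : Finset V} (hD : D ∈ P) : Desc G X C D := c.piece.desc D hD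

lemma vP {D : Finset V} (hD : D ∈ P) : Valid D := (c.L1 C D c.vC (c.dP hD)).1

lemma neV {D : Finset V} (hD : Valid D) : D.Nonempty := (c.dec.conn D hD).1

lemma neP {D : Finset V} (hD : D ∈ P) : D.Nonempty := c.neV (c.vP hD)

lemma subC {D : Finset V} (hD : Desc G X C D) : D ⊆ C := (c.L1 C D c.vC hD).2.1

lemma nev {D : Finset V} (hD : D ∈ P) : (Vh G C h D).Nonempty :=
  (c.neP hD).mono (c.V2 D (c.dP hD)).1

lemma hang_desc {D : Finset V} (hD : D ∈ Hang G X P) : Desc G X C D :=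
  (c.dP (par_spec hD).1).tail (par_spec hD).2

lemma hang_valid {D : Finset V} (hD : D ∈ Hang G X P) : Valid D :=
  (c.L1 C D c.vC (c.hang_desc hD)).1

lemma hang_notMem {D : Finset V} (hD : D ∈ Hang G X P) : D ∉ P := (mem_Hang.1 hD).1

/-- T1, first half -/
lemma T1a {D₀ D : Finset V} (hD₀ : D₀ ∈ Hang G X P) (hD : D ∈ P) :
    D₀ ⊆ D ∨ (Disjoint D₀ D ∧ ∀ u ∈ D₀, ∀ v ∈ D, ¬ G.Adj u v) := by
  rcases c.L2 C D₀ D c.vC (c.hang_desc hD₀) (c.dP hD) with h1 | h1 | h1
  · exact absurd (c.piece.up D hD D₀ (c.hang_desc hD₀) h1) (c.hang_notMem hD₀)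
  · exact Or.inl (c.L1 D D₀ (c.vP hD) h1).2.1
  · exact Or.inr h1

/-- T1, second half -/
lemma T1b {D₀ D : Finset V} {x : V} (hD₀ : D₀ ∈ Hang G X P) (hD : D ∈ P) (hx : x ∈ nbr G D₀)
    (hxD : x ∈ Vh G C h D) : D₀ ⊆ Vh G C h D := by
  rcases c.T1a hD₀ hD with h1 | ⟨h1, h2⟩
  · exact h1.trans (c.V2 D (c.dP hD)).1
  · intro z hz
    by_contra hzD
    have hD₀C := c.subC (c.hang_desc hD₀)
    obtain ⟨-, y, hy, hyx⟩ := mem_nbr.1 hx
    have hyD : y ∈ Vh G C h D := by
      by_contra hyD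
      have h5 := c.V4 D (c.dP hD) x y hxD hyD (gr_adj.2 ⟨hyx.symm, Or.inr (hD₀C hy)⟩)
      exact h2 y hy x h5 hyx
    have h6 := (c.dec.conn D₀ (c.hang_valid hD₀)).2 y hy z hz
    obtain ⟨a, ha, b, hb, haD, hbD, hab⟩ := h6.exit hyD hzD
    have h7 := c.V4 D (c.dP hD) a b haD hbD (gr_adj.2 ⟨hab, Or.inl (hD₀C ha)⟩)
    exact disjoint_left.1 h1 ha h7

omit c in
lemma own_inl (e : {e : G.edgeSet // Real G X P e}) :
    own (Sum.inl e : TE G X P) ∈ P ∧ gs e.1 ∈ X (own (Sum.inl e : TE G X P)) ∧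
      gt e.1 ∈ X (own (Sum.inl e : TE G X P)) ∧
      (gs e.1 ∈ own (Sum.inl e : TE G X P) ∨ gt e.1 ∈ own (Sum.inl e : TE G X P)) :=
  e.2.choose_spec

omit c in
lemma own_inr (p : {p : Finset V × V // p.1 ∈ Hang G X P ∧ p.2 ∈ nbr G p.1}) :
    own (Sum.inr p : TE G X P) ∈ P ∧ Child G X (own (Sum.inr p : TE G X P)) p.1.1 :=
  par_spec p.2.1

omit c in
lemma ownP (e : TE G X P) : own e ∈ P := by
  rcases e with e | p
  · exact (own_inl e).1
  · exact (own_inr p).1

/-- a real edge is an edge of `gr G C` -/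
lemma real_gr (e : {e : G.edgeSet // Real G X P e}) : (gr G C).Adj (gs e.1) (gt e.1) := by
  obtain ⟨h1, -, -, h4⟩ := own_inl e
  exact gr_adj.2 ⟨adj_gs_gt e.1, h4.imp (fun h => c.subC (c.dP h1) h)
    (fun h => c.subC (c.dP h1) h)⟩

lemma own_touch (e : TE G X P) : Tch e (Vh G C h (own e)) := by
  have h2 := (c.V2 _ (c.dP (ownP e))).1
  rcases e with e | p
  · exact (own_inl e).2.2.2.imp (fun h => h2 h) (fun h => h2 h)
  · have h3 := (c.L1 _ _ (c.vP (own_inr p).1) (Relation.ReflTransGen.single (own_inr p).2)).2.1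
    exact h3.trans h2

lemma TT_ne (e : TE G X P) : (TT C h e).Nonempty := by
  classical
  exact ⟨own e, mem_filter.2 ⟨ownP e, c.own_touch e⟩⟩

lemma AA_mem (e : TE G X P) : AA C h e ∈ P ∧ Tch e (Vh G C h (AA C h e)) := by
  classical
  exact mem_filter.1 (am_spec _ (c.TT_ne e)).1

lemma AA_le (e : TE G X P) {D : Finset V} (hD : D ∈ P) (hT : Tch e (Vh G C h D)) :
    (Vh G C h (AA C h e)).card * (Fintype.card V + 1) + (AA C h e).card ≤
      (Vh G C h D).card * (Fintype.card V + 1) + D.card := by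
  classical
  exact (am_spec (fun D => (Vh G C h D).card * (Fintype.card V + 1) + D.card) (c.TT_ne e)).2 D
    (mem_filter.2 ⟨hD, hT⟩)

/-- laminar -/
lemma lam {D D' : Finset V} (hD : D ∈ P) (hD' : D' ∈ P) :
    Vh G C h D ⊆ Vh G C h D' ∨ Vh G C h D' ⊆ Vh G C h D ∨
      Disjoint (Vh G C h D) (Vh G C h D') := by
  rcases c.L2 C D D' c.vC (c.dP hD) (c.dP hD') with h1 | h1 | h1
  · exact Or.inr (Or.inl (c.V3 _ _ (c.dP hD') (c.dP hD) (c.L1 D D' (c.vP hD) h1).2.1))
  · exact Or.inl (c.V3 _ _ (c.dP hD) (c.dP hD') (c.L1 D' D (c.vP hD') h1).2.1)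
  · rcases c.V5 D D' (c.dP hD) (c.dP hD') h1.1 with h2 | h2 | h2
    · exact Or.inr (Or.inr h2.1)
    · exact Or.inr (Or.inl h2.1.subset)
    · exact Or.inl h2.1.subset

/-- T2 -/
lemma T2 (e : TE G X P) {D D' : Finset V} (hD : D ∈ P) (hD' : D' ∈ P)
    (hT : Tch e (Vh G C h D)) (hT' : Tch e (Vh G C h D')) :
    ¬ Disjoint (Vh G C h D) (Vh G C h D') := by
  intro hdis
  have hno : ∀ x ∈ Vh G C h D, ∀ y ∈ Vh G C h D', ¬ (gr G C).Adj x y := by
    rcases c.L2 C D D' c.vC (c.dP hD) (c.dP hD') with h1 | h1 | h1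
    · have h2 := c.V3 _ _ (c.dP hD') (c.dP hD) (c.L1 D D' (c.vP hD) h1).2.1
      obtain ⟨z, hz⟩ := c.nev hD'
      exact absurd hz (disjoint_left.1 hdis (h2 hz))
    · have h2 := c.V3 _ _ (c.dP hD) (c.dP hD') (c.L1 D' D (c.vP hD') h1).2.1
      obtain ⟨z, hz⟩ := c.nev hD
      exact absurd (h2 hz) (disjoint_left.1 hdis hz)
    · rcases c.V5 D D' (c.dP hD) (c.dP hD') h1.1 with h2 | h2 | h2
      · exact h2.2
      · obtain ⟨z, hz⟩ := c.nev hD'
        exact absurd hz (disjoint_left.1 hdis (h2.1.subset hz))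
      · obtain ⟨z, hz⟩ := c.nev hD
        exact absurd (h2.1.subset hz) (disjoint_left.1 hdis hz)
  rcases e with e | p
  · rcases hT with h1 | h1 <;> rcases hT' with h2 | h2
    · exact disjoint_left.1 hdis h1 h2
    · exact hno _ h1 _ h2 (c.real_gr e)
    · exact hno _ h1 _ h2 (c.real_gr e).symm
    · exact disjoint_left.1 hdis h1 h2
  · obtain ⟨z, hz⟩ := c.neV (c.hang_valid p.2.1)
    exact disjoint_left.1 hdis (hT hz) (hT' hz)

lemma card_lt (D : Finset V) : D.card < Fintype.card V + 1 := by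
  have := card_le_univ D
  omega

/-- the smallest touched side is contained in every touched side -/
lemma AA_sub (e : TE G X P) {D : Finset V} (hD : D ∈ P) (hT : Tch e (Vh G C h D)) :
    Vh G C h (AA C h e) ⊆ Vh G C h D := by
  obtain ⟨h1, h2⟩ := c.AA_mem e
  rcases c.lam h1 hD with h3 | h3 | h3
  · exact h3
  · have h4 := c.AA_le e hD hT
    have h5 := c.card_lt (AA C h e)
    have h6 := c.card_lt D
    have h7 : (Vh G C h (AA C h e)).card ≤ (Vh G C h D).card := by
      by_contra hc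
      push Not at hc
      nlinarith
    rw [eq_of_subset_of_card_le h3 h7]
  · exact absurd h3 (c.T2 e h1 hD h2 hT)

/-- T3 -/
lemma T3 (e : TE G X P) : AA C h e ⊆ own e := by
  obtain ⟨h1, h2⟩ := c.AA_mem e
  have hE := ownP e
  have hET := c.own_touch e
  have hsub := c.AA_sub e hE hET
  rcases c.L2 C (own e) (AA C h e) c.vC (c.dP hE) (c.dP h1) with h3 | h3 | h3
  · exact (c.L1 _ _ (c.vP hE) h3).2.1
  · have h4 := (c.L1 _ _ (c.vP h1) h3).2.1
    have h5 := c.V3 _ _ (c.dP hE) (c.dP h1) h4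
    have h6 : Vh G C h (AA C h e) = Vh G C h (own e) := Subset.antisymm hsub h5
    have h7 := c.AA_le e hE hET
    rw [h6] at h7
    have h8 : (AA C h e).card ≤ (own e).card := by omega
    exact (eq_of_subset_of_card_le h4 h8).symm.subset
  · exfalso
    rcases c.V5 _ _ (c.dP hE) (c.dP h1) h3.1 with h4 | h4 | h4
    · obtain ⟨z, hz⟩ := c.nev h1
      exact disjoint_left.1 h4.1 (hsub hz) hz
    · rcases e with e | p
      · rcases (own_inl e).2.2.2 with h5 | h5
        · have h6 : gs e.1 ∉ Vh G C h (AA C h (Sum.inl e : TE G X P)) := disjoint_left.1 h4.2.2 h5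
          have h7 : gt e.1 ∈ Vh G C h (AA C h (Sum.inl e : TE G X P)) := h2.resolve_left h6
          have h8 := c.V4 _ (c.dP h1) _ _ h7 h6 (c.real_gr e).symm
          exact h3.2 _ h5 _ h8 (adj_gs_gt e.1)
        · have h6 : gt e.1 ∉ Vh G C h (AA C h (Sum.inl e : TE G X P)) := disjoint_left.1 h4.2.2 h5
          have h7 : gs e.1 ∈ Vh G C h (AA C h (Sum.inl e : TE G X P)) := h2.resolve_right h6
          have h8 := c.V4 _ (c.dP h1) _ _ h7 h6 (c.real_gr e)
          exact h3.2 _ h5 _ h8 (adj_gs_gt e.1).symm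
      · obtain ⟨z, hz⟩ := c.neV (c.hang_valid p.2.1)
        have h5 := (c.L1 _ _ (c.vP (own_inr p).1)
          (Relation.ReflTransGen.single (own_inr p).2)).2.1 hz
        exact disjoint_left.1 h4.2.2 h5 (h2 hz)
    · exact h4.1.not_subset hsub

/-- the member with a given side is unique if its size is minimal -/
lemma AA_eq {e e' : TE G X P} (he : Vh G C h (AA C h e) = Vh G C h (AA C h e')) :
    AA C h e = AA C h e' := by
  obtain ⟨h1, h2⟩ := c.AA_mem e
  obtain ⟨h1', h2'⟩ := c.AA_mem e'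
  have h3 := c.AA_le e h1' (by rw [← he]; exact h2)
  have h4 := c.AA_le e' h1 (by rw [he]; exact h2')
  rw [he] at h3 h4
  have h5 : (AA C h e).card = (AA C h e').card := by omega
  rcases c.L2 C _ _ c.vC (c.dP h1) (c.dP h1') with h6 | h6 | h6
  · exact (eq_of_subset_of_card_le (c.L1 _ _ (c.vP h1) h6).2.1 h5.le).symm
  · exact eq_of_subset_of_card_le (c.L1 _ _ (c.vP h1') h6).2.1 h5.ge
  · exfalso
    rcases c.V5 _ _ (c.dP h1) (c.dP h1') h6.1 with h7 | h7 | h7
    · obtain ⟨z, hz⟩ := c.nev h1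
      exact disjoint_left.1 h7.1 hz (he ▸ hz)
    · exact h7.1.ne he.symm
    · exact h7.1.ne he

/-- equal sides are equal position -/
lemma TT_star {p p' : {p : Finset V × V // p.1 ∈ Hang G X P ∧ p.2 ∈ nbr G p.1}}
    (hp : p.1.1 = p'.1.1) : TT C h (Sum.inr p : TE G X P) = TT C h (Sum.inr p' : TE G X P) := by
  classical
  unfold TT
  apply filter_congr
  intro D _
  show p.1.1 ⊆ _ ↔ p'.1.1 ⊆ _
  rw [hp]

lemma AA_star {p p' : {p : Finset V × V // p.1 ∈ Hang G X P ∧ p.2 ∈ nbr G p.1}}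
    (hp : p.1.1 = p'.1.1) : AA C h (Sum.inr p : TE G X P) = AA C h (Sum.inr p' : TE G X P) := by
  unfold AA
  rw [c.TT_star hp]

/-- the ends of a torso edge in `V` are in the bag of the owner -/
lemma end_X (e : TE G X P) {x : V} (hx : ts G X P e = Sum.inl x ∨ tt G X P e = Sum.inl x) :
    x ∈ X (own e) := by
  rcases e with e | p
  · rcases hx with h1 | h1
    · have h2 : gs e.1 = x := Sum.inl.inj h1
      rw [← h2]
      exact (own_inl e).2.1
    · have h2 : gt e.1 = x := Sum.inl.inj h1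
      rw [← h2]
      exact (own_inl e).2.2.1
  · rcases hx with h1 | h1
    · exact absurd h1 (by simp [ts])
    · have h2 : p.1.2 = x := Sum.inl.inj h1
      rw [← h2]
      exact (c.L3 _ _ (c.vP (own_inr p).1) (own_inr p).2).1 p.2.2

omit c in
lemma end_inr (e : TE G X P) {D : Finset V}
    (hx : ts G X P e = Sum.inr D ∨ tt G X P e = Sum.inr D) :
    ∃ p : {p : Finset V × V // p.1 ∈ Hang G X P ∧ p.2 ∈ nbr G p.1}, e = Sum.inr p ∧ p.1.1 = D := by
  rcases e with e | p
  · rcases hx with h1 | h1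
    · exact absurd h1 (by simp [ts])
    · exact absurd h1 (by simp [tt])
  · rcases hx with h1 | h1
    · exact ⟨p, rfl, Sum.inr.inj h1⟩
    · exact absurd h1 (by simp [tt])

/-- an edge leaves a touched side only through `D` -/
lemma leave (e : TE G X P) {D : Finset V} (hD : D ∈ P) (hT : Tch e (Vh G C h D)) {x : V}
    (hx : ts G X P e = Sum.inl x ∨ tt G X P e = Sum.inl x) (hxD : x ∉ Vh G C h D) :
    x ∈ nbr G D := by
  have hDs := (c.V2 D (c.dP hD)).1
  have key : ∀ y, y ∈ Vh G C h D → (gr G C).Adj y x → x ∈ nbr G D := by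
    intro y hy hyx
    have h1 := c.V4 D (c.dP hD) y x hy hxD hyx
    exact mem_nbr.2 ⟨fun hh => hxD (hDs hh), y, h1, hyx.1⟩
  rcases e with e | p
  · rcases hx with h1 | h1
    · have h2 : gs e.1 = x := Sum.inl.inj h1
      rw [← h2] at hxD key ⊢
      exact key _ (hT.resolve_left hxD) (c.real_gr e).symm
    · have h2 : gt e.1 = x := Sum.inl.inj h1
      rw [← h2] at hxD key ⊢
      exact key _ (hT.resolve_right hxD) (c.real_gr e)
  · rcases hx with h1 | h1
    · exact absurd h1 (by simp [ts])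
    · have h2 : p.1.2 = x := Sum.inl.inj h1
      rw [← h2] at hxD key ⊢
      obtain ⟨-, y, hy, hyx⟩ := mem_nbr.1 p.2.2
      exact key y (hT hy) (gr_adj.2 ⟨hyx, Or.inl (c.subC (c.hang_desc p.2.1) hy)⟩)

/-- an edge with an end in a side touches it -/
lemma touch_of_end (e : TE G X P) {D : Finset V} (hD : D ∈ P) {x : V}
    (hx : ts G X P e = Sum.inl x ∨ tt G X P e = Sum.inl x) (hxD : x ∈ Vh G C h D) :
    Tch e (Vh G C h D) := by
  rcases e with e | p
  · rcases hx with h1 | h1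
    · have h2 : gs e.1 = x := Sum.inl.inj h1
      exact Or.inl (h2 ▸ hxD)
    · have h2 : gt e.1 = x := Sum.inl.inj h1
      exact Or.inr (h2 ▸ hxD)
  · rcases hx with h1 | h1
    · exact absurd h1 (by simp [ts])
    · have h2 : p.1.2 = x := Sum.inl.inj h1
      exact c.T1b p.2.1 hD p.2.2 (h2 ▸ hxD)

end Ctx

open Classical in
/-- positions -/
noncomputable def pos (V₁ W : Finset V) : ℕ :=
  if V₁ ⊆ W then Fintype.card V + 1 + W.card else W.card

open Classical in
/-- index of the star -/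
noncomputable def grp (e : TE G X P) : ℕ :=
  match e with
  | Sum.inl _ => 0
  | Sum.inr p => 1 + (Fintype.equivFin (Finset V) p.1.1 : ℕ)

lemma grp_lt (e : TE G X P) : grp e < Fintype.card (Finset V) + 1 := by
  rcases e with e | p
  · show 0 < _
    omega
  · show 1 + (Fintype.equivFin (Finset V) p.1.1 : ℕ) < _
    have := (Fintype.equivFin (Finset V) p.1.1).2
    omega

lemma grp_star {e : TE G X P} {p : {p : Finset V × V // p.1 ∈ Hang G X P ∧ p.2 ∈ nbr G p.1}}
    (he : grp e = grp (Sum.inr p : TE G X P)) : ts G X P e = Sum.inr p.1.1 := by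
  rcases e with e | p'
  · have : (0 : ℕ) = 1 + (Fintype.equivFin (Finset V) p.1.1 : ℕ) := he
    omega
  · have h1 : 1 + (Fintype.equivFin (Finset V) p'.1.1 : ℕ) =
      1 + (Fintype.equivFin (Finset V) p.1.1 : ℕ) := he
    have h2 : Fintype.equivFin (Finset V) p'.1.1 = Fintype.equivFin (Finset V) p.1.1 :=
      Fin.ext (by omega)
    have h3 := (Fintype.equivFin (Finset V)).injective h2
    show Sum.inr p'.1.1 = _
    rw [h3]

/-- second key -/
noncomputable def ky (e : TE G X P) : ℕ :=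
  (own e).card * (Fintype.card (Finset V) + 1) + grp e

lemma ky_le {e e' : TE G X P} (h : ky e ≤ ky e') : (own e).card ≤ (own e').card := by
  by_contra hc
  push Not at hc
  unfold ky at h
  have := grp_lt e'
  nlinarith

lemma ky_eq {e e' : TE G X P} (h : ky e = ky e') : grp e = grp e' := by
  have h1 := ky_le h.le
  have h2 := ky_le h.ge
  have h3 : (own e).card = (own e').card := le_antisymm h1 h2
  unfold ky at h
  rw [h3] at h
  omega

lemma ky_star {p p' : {p : Finset V × V // p.1 ∈ Hang G X P ∧ p.2 ∈ nbr G p.1}}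
    (hp : p.1.1 = p'.1.1) : ky (Sum.inr p : TE G X P) = ky (Sum.inr p' : TE G X P) := by
  show (par G X P p.1.1).card * _ + (1 + (Fintype.equivFin (Finset V) p.1.1 : ℕ)) =
    (par G X P p'.1.1).card * _ + (1 + (Fintype.equivFin (Finset V) p'.1.1 : ℕ))
  rw [hp]

theorem main (c : Ctx G k Valid X C P h) (hOA : S_OA) : GoodOrder G X P (6 * (k + 1)) := by
  classical
  -- a minimal side
  obtain ⟨B₁, hB₁, hmin⟩ := P.exists_min_image (fun D => (Vh G C h D).card) ⟨C, c.piece.top⟩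
  let V₁ := Vh G C h B₁
  let ps : Finset V → ℕ := fun D => pos V₁ (Vh G C h D)
  have hlam1 : ∀ D ∈ P, ¬ V₁ ⊆ Vh G C h D → Disjoint V₁ (Vh G C h D) := by
    intro D hD hn
    rcases c.lam hB₁ hD with h1 | h1 | h1
    · exact absurd h1 hn
    · exact absurd (eq_of_subset_of_card_le h1 (hmin D hD)).symm.subset hn
    · exact h1
  -- the two classes are chains
  have hchain : ∀ D ∈ P, ∀ D' ∈ P, (V₁ ⊆ Vh G C h D ↔ V₁ ⊆ Vh G C h D') →
      (Vh G C h D).card ≤ (Vh G C h D').card → Vh G C h D ⊆ Vh G C h D' := by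
    intro D hD D' hD' hiff hcard
    rcases c.lam hD hD' with h1 | h1 | h1
    · exact h1
    · exact (eq_of_subset_of_card_le h1 hcard).symm.subset
    · exfalso
      by_cases hV : V₁ ⊆ Vh G C h D
      · obtain ⟨z, hz⟩ := c.nev hB₁
        exact disjoint_left.1 h1 (hV hz) (hiff.1 hV hz)
      · exact c.h3 B₁ hB₁ D hD D' hD' (hlam1 D hD hV) (hlam1 D' hD' (fun hh => hV (hiff.2 hh))) h1
  have hlt : ∀ W : Finset V, W.card < Fintype.card V + 1 := fun W => by
    have := card_le_univ W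
    omega
  have hclass : ∀ D D' : Finset V, ps D = ps D' →
      (V₁ ⊆ Vh G C h D ↔ V₁ ⊆ Vh G C h D') ∧ (Vh G C h D).card = (Vh G C h D').card := by
    intro D D' hps
    simp only [ps, pos] at hps
    have h1 := hlt (Vh G C h D)
    have h2 := hlt (Vh G C h D')
    split_ifs at hps with h3 h4 h4
    · exact ⟨⟨fun _ => h4, fun _ => h3⟩, by omega⟩
    · omega
    · omega
    · exact ⟨⟨fun h => absurd h h3, fun h => absurd h h4⟩, hps⟩
  have hposinj : ∀ D ∈ P, ∀ D' ∈ P, ps D = ps D' → Vh G C h D = Vh G C h D' := by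
    intro D hD D' hD' hps
    obtain ⟨h1, h2⟩ := hclass D D' hps
    exact Subset.antisymm (hchain D hD D' hD' h1 h2.le) (hchain D' hD' D hD h1.symm h2.ge)
  have hposmono : ∀ D D' : Finset V, Vh G C h D ⊆ Vh G C h D' → ps D ≤ ps D' := by
    intro D D' hDD
    simp only [ps, pos]
    have h1 := card_le_card hDD
    split_ifs with h3 h4 h4
    · omega
    · exact absurd (h3.trans hDD) h4
    · have := hlt (Vh G C h D)
      omega
    · exact h1
  -- first key
  let κ₁ : TE G X P → ℕ := fun e => ps (AA C h e)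
  -- the boundary sets
  let Qa : ℕ → Finset (Finset V) := fun p => P.filter fun D => ¬ V₁ ⊆ Vh G C h D ∧ ps D ≤ p
  let Qb : ℕ → Finset (Finset V) := fun p => P.filter fun D => V₁ ⊆ Vh G C h D ∧ ps D ≤ p
  let mx : Finset (Finset V) → Finset V := fun Q =>
    am (fun D => Fintype.card V - (Vh G C h D).card) Q
  have hmx : ∀ Q : Finset (Finset V), Q ⊆ P → (∀ D ∈ Q, ∀ D' ∈ Q,
      (V₁ ⊆ Vh G C h D ↔ V₁ ⊆ Vh G C h D')) → ∀ D ∈ Q, mx Q ∈ Q ∧
      Vh G C h D ⊆ Vh G C h (mx Q) := by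
    intro Q hQ hiff D hD
    obtain ⟨h1, h2⟩ := am_spec (fun D => Fintype.card V - (Vh G C h D).card) ⟨D, hD⟩
    refine ⟨h1, hchain D (hQ hD) _ (hQ h1) (hiff D hD _ h1) ?_⟩
    have h3 := h2 D hD
    have h4 := hlt (Vh G C h D)
    have h5 := hlt (Vh G C h (mx Q))
    simp only [mx] at h5 ⊢
    omega
  let bd : Finset (Finset V) → Finset V := fun Q => if Q.Nonempty then nbr G (mx Q) else ∅
  have hnb : ∀ D ∈ P, (nbr G D).card ≤ k + 1 := fun D hD =>
    (card_le_card (c.dec.sub D (c.vP hD))).trans (c.dec.card D (c.vP hD))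
  have hbd : ∀ Q : Finset (Finset V), Q ⊆ P → (bd Q).card ≤ k + 1 := by
    intro Q hQ
    by_cases hne : Q.Nonempty
    · simp only [bd, if_pos hne]
      exact hnb _ (hQ (am_spec _ hne).1)
    · simp only [bd, if_neg hne, card_empty]
      omega
  let N : ℕ → Finset (V ⊕ Finset V) := fun p => (bd (Qa p) ∪ bd (Qb p)).image Sum.inl
  have hQa : ∀ p, Qa p ⊆ P := fun p => filter_subset _ _
  have hQb : ∀ p, Qb p ⊆ P := fun p => filter_subset _ _
  have hN : ∀ p, (N p).card ≤ 2 * (k + 1) := by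
    intro p
    refine card_image_le.trans ((card_union_le _ _).trans ?_)
    have h1 := hbd _ (hQa p)
    have h2 := hbd _ (hQb p)
    omega
  -- an argument for both classes
  have hB : ∀ (p : ℕ) (Q : Finset (Finset V)), Q ⊆ P → (∀ D ∈ Q, ∀ D' ∈ Q,
      (V₁ ⊆ Vh G C h D ↔ V₁ ⊆ Vh G C h D')) → (∀ D ∈ Q, ps D ≤ p) →
      ∀ (e e' : TE G X P), AA C h e ∈ Q → p < κ₁ e' → ∀ x : V,
      (ts G X P e = Sum.inl x ∨ tt G X P e = Sum.inl x) →
      (ts G X P e' = Sum.inl x ∨ tt G X P e' = Sum.inl x) → x ∈ bd Q := by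
    intro p Q hQ hiff hp e e' he he' x hx hx'
    have hne : Q.Nonempty := ⟨_, he⟩
    simp only [bd, if_pos hne]
    obtain ⟨h1, h2⟩ := hmx Q hQ hiff _ he
    have h3 : Tch e (Vh G C h (mx Q)) := (c.AA_mem e).2.mono h2
    have h4 : ¬ Tch e' (Vh G C h (mx Q)) := by
      intro hT
      have h5 := c.AA_sub e' (hQ h1) hT
      have h6 := hposmono _ _ h5
      have h7 := hp _ h1
      have h8 : κ₁ e' = ps (AA C h e') := rfl
      omega
    have h5 : x ∉ Vh G C h (mx Q) := fun hh => h4 (c.touch_of_end e' (hQ h1) hx' hh)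
    exact c.leave e (hQ h1) h3 hx h5
  obtain ⟨f, hf, hfb, hfk⟩ := hOA (V ⊕ Finset V) (TE G X P) (ts G X P) (tt G X P) κ₁ ky N
    (fun e => (X (own e)).image Sum.inl) (2 * (k + 1)) (k + 1) hN
    (fun e => card_image_le.trans (c.dec.card _ (c.vP (Ctx.ownP e)))) (by
      intro p e e' v hp hp' hv hv'
      rcases v with x | D
      · apply mem_image_of_mem
        rw [mem_union]
        by_cases hV : V₁ ⊆ Vh G C h (AA C h e)
        · right
          refine hB p (Qb p) (hQb p) ?_ ?_ e e' ?_ hp' x hv hv'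
          · intro D hD D' hD'
            exact ⟨fun _ => (mem_filter.1 hD').2.1, fun _ => (mem_filter.1 hD).2.1⟩
          · intro D hD
            exact (mem_filter.1 hD).2.2
          · exact mem_filter.2 ⟨(c.AA_mem e).1, hV, hp⟩
        · left
          refine hB p (Qa p) (hQa p) ?_ ?_ e e' ?_ hp' x hv hv'
          · intro D hD D' hD'
            exact ⟨fun hh => absurd hh (mem_filter.1 hD).2.1,
              fun hh => absurd hh (mem_filter.1 hD').2.1⟩
          · intro D hD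
            exact (mem_filter.1 hD).2.2
          · exact mem_filter.2 ⟨(c.AA_mem e).1, hV, hp⟩
      · exfalso
        obtain ⟨q, rfl, hq⟩ := Ctx.end_inr e hv
        obtain ⟨q', rfl, hq'⟩ := Ctx.end_inr e' hv'
        have h1 : κ₁ (Sum.inr q) = κ₁ (Sum.inr q') := by
          simp only [κ₁]
          rw [c.AA_star (hq.trans hq'.symm)]
        omega)
    (by
      intro e e' e₀ v h1 h1' h2 h2' hv hv'
      rcases v with x | D
      · left
        apply mem_image_of_mem
        have hP := Ctx.ownP e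
        have hP' := Ctx.ownP e'
        have hP₀ := Ctx.ownP e₀
        have hA : AA C h e = AA C h e₀ :=
          c.AA_eq (hposinj _ (c.AA_mem e).1 _ (c.AA_mem e₀).1 h1)
        have hA' : AA C h e' = AA C h e₀ :=
          c.AA_eq (hposinj _ (c.AA_mem e').1 _ (c.AA_mem e₀).1 h1')
        have hAe := c.T3 e
        have hAe' := c.T3 e'
        have hAe₀ := c.T3 e₀
        rw [hA] at hAe
        rw [hA'] at hAe'
        obtain ⟨z, hz⟩ := c.neP (c.AA_mem e₀).1
        have k1 := ky_le h2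
        have k2 := ky_le h2'
        -- comparable owners
        have hcmp : ∀ E ∈ P, ∀ E' ∈ P, z ∈ E → z ∈ E' → E.card ≤ E'.card → Desc G X E' E := by
          intro E hE E' hE' hzE hzE' hcard
          rcases c.L2 C E E' c.vC (c.dP hE) (c.dP hE') with h3 | h3 | h3
          · have h4 := (c.L1 _ _ (c.vP hE) h3).2.1
            have h5 := eq_of_subset_of_card_le h4 hcard
            rw [h5]
            exact Relation.ReflTransGen.refl
          · exact h3
          · exact absurd hzE' (disjoint_left.1 h3.1 hzE)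
        have d1 := hcmp _ hP _ hP₀ (hAe hz) (hAe₀ hz) k1
        have d2 := hcmp _ hP₀ _ hP' (hAe₀ hz) (hAe' hz) k2
        have hx := c.end_X e hv
        have hx' := c.end_X e' hv'
        obtain ⟨-, s1, s2, -⟩ := c.L1 _ _ (c.vP hP₀) d1
        have hx0 : x ∈ own e₀ ∪ nbr G (own e₀) := by
          rcases mem_union.1 (c.dec.sup _ (c.vP hP) hx) with h3 | h3
          · exact mem_union_left _ (s1 h3)
          · exact s2 h3
        by_cases heq : own e₀ = own e'
        · rw [heq]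
          exact hx'
        · have h3 := ((c.L1 _ _ (c.vP hP') d2).2.2.2 heq).2
          have h4 : x ∉ own e₀ := fun hh => disjoint_left.1 h3 hh hx'
          exact c.dec.sub _ (c.vP hP₀) ((mem_union.1 hx0).resolve_left h4)
      · right
        obtain ⟨q, rfl, hq⟩ := Ctx.end_inr e hv
        obtain ⟨q', rfl, hq'⟩ := Ctx.end_inr e' hv'
        have h3 := ky_star (G := G) (X := X) (P := P) (hq.trans hq'.symm)
        have h4 : ky e₀ = ky (Sum.inr q : TE G X P) := by omega
        rw [grp_star (ky_eq h4), hq])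
  refine ⟨f, hf, fun p => (hfb p).trans (by omega), ?_⟩
  intro D e e' e'' hs hs' hle hle'
  obtain ⟨q, rfl, hq⟩ := Ctx.end_inr e (Or.inl hs)
  obtain ⟨q', rfl, hq'⟩ := Ctx.end_inr e' (Or.inl hs')
  have h1 : κ₁ (Sum.inr q) = κ₁ (Sum.inr q') := by
    simp only [κ₁]
    rw [c.AA_star (hq.trans hq'.symm)]
  have h2 := ky_star (G := G) (X := X) (P := P) (hq.trans hq'.symm)
  have h3 := hfk _ _ hle
  have h4 := hfk _ _ hle'
  have h5 : ky e'' = ky (Sum.inr q : TE G X P) := by omega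
  rw [grp_star (ky_eq h5), hq]

end ORP

theorem OR_thm (hLM : S_LM) (hVD : S_VD) (hOA : S_OA) : S_OR := by
  intro V _ _ G k Valid X C P h hdec hC hh hP h3
  obtain ⟨L1, L2, L3, -, -⟩ := hLM V G k Valid X hdec
  obtain ⟨-, V2, V3, V4, V5⟩ := hVD V G k Valid X C h hdec hC hh
  exact ORP.main ⟨hdec, hC, hP, L1, L2, L3, V2, V3, V4, V5, h3⟩ hOA

end LW
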